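import Mathlib

set_option autoImplicit false

open MeasureTheory Filter Topology Set
open scoped BoundedContinuousFunction

namespace Pool.Agent.H906R2.LG

/-- the circle `ℝ / ℤ` -/
abbrev T := UnitAddCircle

/-- Fourier coefficient of a measure -/
noncomputable def fc (μ : Measure T) (n : ℤ) : ℂ := ∫ x, (fourier n x : ℂ) ∂μ

lemma fourier_nsmul (n : ℤ) (m : ℕ) (x : T) : (fourier n (m • x) : ℂ) = fourier (n * m) x := by
  rw [fourier_apply, fourier_apply, ← natCast_zsmul, smul_smul]

lemma fourier_norm_one (n : ℤ) (x : T) : ‖(fourier n x : ℂ)‖ = 1 := by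
  rw [fourier_apply]; exact Circle.norm_coe _

lemma fourier_int (μ : Measure T) [IsFiniteMeasure μ] (n : ℤ) :
    Integrable (fun x => (fourier n x : ℂ)) μ := by
  refine Integrable.mono' (integrable_const (1:ℝ)) (map_continuous (fourier n)).aestronglyMeasurable
    (Eventually.of_forall fun x => (fourier_norm_one n x).le)

lemma nsmul_meas (n : ℕ) : Measurable (fun x : T => n • x) :=
  (continuous_nsmul n).measurable

lemma fc_map (μ : Measure T) (n : ℕ) (k : ℤ) :
    fc (μ.map (fun x => n • x)) k = fc μ (k * n) := by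
  rw [fc, integral_map (nsmul_meas n).aemeasurable (map_continuous (fourier k)).aestronglyMeasurable,
    fc]
  simp only [fourier_nsmul]

lemma fc_norm_le (μ : Measure T) [IsProbabilityMeasure μ] (n : ℤ) : ‖fc μ n‖ ≤ 1 := by
  rw [fc]
  have := norm_integral_le_of_norm_le_const (μ := μ) (C := 1)
    (Eventually.of_forall fun x => (fourier_norm_one n x).le)
  simpa using this

lemma fc_zero (μ : Measure T) [IsProbabilityMeasure μ] : fc μ 0 = 1 := by
  simp [fc]

lemma conj_fc (μ : Measure T) (n : ℤ) : (starRingEnd ℂ) (fc μ n) = fc μ (-n) := by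
  rw [fc, fc, ← integral_conj]
  simp only [fourier_neg]

/-- `|μ̂(m)|²` as a double integral -/
lemma norm_sq_fc (μ : Measure T) [IsProbabilityMeasure μ] (m : ℤ) :
    ((‖fc μ m‖ ^ 2 : ℝ) : ℂ) = ∫ z : T × T, (fourier m (z.1 - z.2) : ℂ) ∂(μ.prod μ) := by
  have h1 : ∀ z : T × T, (fourier m (z.1 - z.2) : ℂ) = fourier m z.1 * fourier (-m) z.2 := by
    intro z
    rw [fourier_apply, fourier_apply, fourier_apply, smul_sub, sub_eq_add_neg, AddCircle.toCircle_add,
      neg_smul]
    push_cast; rfl
  simp only [h1]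
  rw [integral_prod_mul (fun x => (fourier m x : ℂ)) (fun y => (fourier (-m) y : ℂ))]
  change _ = fc μ m * fc μ (-m)
  rw [← conj_fc, Complex.mul_conj, Complex.normSq_eq_norm_sq]

lemma geom_tendsto (w : ℂ) (hw : ‖w‖ = 1) (hw1 : w ≠ 1) :
    Tendsto (fun N : ℕ => (1 / (N:ℂ)) * ∑ n ∈ Finset.range N, w ^ (n + 1)) atTop (𝓝 0) := by
  have hb : ∀ N : ℕ, ‖∑ n ∈ Finset.range N, w ^ (n + 1)‖ ≤ 2 / ‖w - 1‖ := by
    intro N
    have h1 : ∑ n ∈ Finset.range N, w ^ (n + 1) = w * ((w ^ N - 1) / (w - 1)) := by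
      rw [← geom_sum_eq hw1, Finset.mul_sum]
      refine Finset.sum_congr rfl fun n _ => ?_
      ring
    rw [h1, norm_mul, hw, one_mul, norm_div]
    gcongr
    refine (norm_sub_le _ _).trans ?_
    rw [norm_pow, hw, one_pow, norm_one]; norm_num
  rw [tendsto_zero_iff_norm_tendsto_zero]
  have h2 : Tendsto (fun N : ℕ => (2 / ‖w - 1‖) / (N:ℝ)) atTop (𝓝 0) :=
    tendsto_const_div_atTop_nhds_zero_nat _
  refine squeeze_zero (fun N => norm_nonneg _) (fun N => ?_) h2
  rw [norm_mul, norm_div, norm_one, Complex.norm_natCast, one_div, div_eq_inv_mul]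
  exact mul_le_mul_of_nonneg_left (hb N) (by positivity)

lemma torsion_finite (k : ℤ) (hk : k ≠ 0) : {u : T | k • u = 0}.Finite := by
  have h := AddCircle.finite_torsion (p := (1:ℝ)) (n := k.natAbs) (Int.natAbs_pos.2 hk)
  refine h.subset fun u hu => ?_
  rw [mem_ofPred_eq] at hu ⊢
  rcases Int.natAbs_eq k with h1 | h1
  · rw [h1, natCast_zsmul] at hu; exact hu
  · rw [h1, neg_smul, natCast_zsmul, neg_eq_zero] at hu; exact hu

lemma diag_null (μ : Measure T) [IsProbabilityMeasure μ] [NullSingletonClass μ] (k : ℤ) (hk : k ≠ 0) :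
    ∀ᵐ z : T × T ∂(μ.prod μ), k • (z.1 - z.2) ≠ 0 := by
  have hmeas : MeasurableSet {z : T × T | k • (z.1 - z.2) = 0} := by
    apply IsClosed.measurableSet
    apply isClosed_eq _ continuous_const
    exact ((continuous_fst.sub continuous_snd).zsmul k)
  rw [ae_iff]
  simp only [ne_eq, not_not]
  rw [Measure.measure_prod_null hmeas]
  refine Eventually.of_forall fun x => ?_
  simp only [Pi.zero_apply]
  apply Set.Finite.measure_zero
  have hfin := torsion_finite k hk
  refine (hfin.image (fun u => x - u)).subset ?_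
  intro y hy
  exact ⟨x - y, hy, by simp⟩

/-- Wiener's lemma along multiples of `k` -/
theorem wiener (μ : Measure T) [IsProbabilityMeasure μ] [NullSingletonClass μ] (k : ℤ) (hk : k ≠ 0) :
    Tendsto (fun N : ℕ => (1 / (N:ℝ)) * ∑ n ∈ Finset.range N, ‖fc μ (k * ((n + 1 : ℕ) : ℤ))‖ ^ 2)
      atTop (𝓝 0) := by
  have hlim : Tendsto (fun N : ℕ => ∫ z : T × T, (1 / (N:ℂ)) * ∑ n ∈ Finset.range N,
      (fourier (k * ((n + 1 : ℕ) : ℤ)) (z.1 - z.2) : ℂ) ∂(μ.prod μ)) atTop
      (𝓝 (∫ _z : T × T, (0:ℂ) ∂(μ.prod μ))) := by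
    apply tendsto_integral_of_dominated_convergence (fun _ => (1:ℝ))
    · intro N
      apply Continuous.aestronglyMeasurable
      refine continuous_const.mul (continuous_finsetSum _ fun n _ => ?_)
      exact (map_continuous _).comp (continuous_fst.sub continuous_snd)
    · exact integrable_const _
    · intro N
      refine Eventually.of_forall fun z => ?_
      rw [norm_mul, norm_div, norm_one, Complex.norm_natCast]
      have : ‖∑ n ∈ Finset.range N, (fourier (k * ((n + 1 : ℕ) : ℤ)) (z.1 - z.2) : ℂ)‖ ≤ N := by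
        refine (norm_sum_le _ _).trans ?_
        simp only [fourier_norm_one, Finset.sum_const, Finset.card_range, nsmul_eq_mul, mul_one,
          le_refl]
      rcases Nat.eq_zero_or_pos N with h0 | h0
      · subst h0; simp
      · have hN : (0:ℝ) < N := by exact_mod_cast h0
        calc 1 / (N:ℝ) * ‖∑ n ∈ Finset.range N, (fourier (k * ((n + 1 : ℕ) : ℤ)) (z.1 - z.2) : ℂ)‖
            ≤ 1 / (N:ℝ) * N := by gcongr
          _ = 1 := by field_simp
    · filter_upwards [diag_null μ k hk] with z hz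
      set w : ℂ := (fourier k (z.1 - z.2) : ℂ) with hw
      have hw1 : w ≠ 1 := by
        intro h
        apply hz
        rw [hw, fourier_apply] at h
        have h2 : AddCircle.toCircle (k • (z.1 - z.2)) = AddCircle.toCircle (0 : T) := by
          rw [AddCircle.toCircle_zero]; exact Circle.ext (by simpa using h)
        exact AddCircle.injective_toCircle (by norm_num) h2
      have hpow : ∀ n : ℕ, (fourier (k * ((n + 1 : ℕ) : ℤ)) (z.1 - z.2) : ℂ) = w ^ (n + 1) := by
        intro n
        rw [hw, fourier_apply, fourier_apply, ← Circle.coe_pow, ← AddCircle.toCircle_nsmul]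
        congr 2
        rw [mul_comm, ← smul_smul, natCast_zsmul]
      simp only [hpow]
      exact geom_tendsto w (fourier_norm_one _ _) hw1
  simp only [integral_zero] at hlim
  have heq : ∀ N : ℕ, (∫ z : T × T, (1 / (N:ℂ)) * ∑ n ∈ Finset.range N,
      (fourier (k * ((n + 1 : ℕ) : ℤ)) (z.1 - z.2) : ℂ) ∂(μ.prod μ)) =
      (((1 / (N:ℝ)) * ∑ n ∈ Finset.range N, ‖fc μ (k * ((n + 1 : ℕ) : ℤ))‖ ^ 2 : ℝ) : ℂ) := by
    intro N
    rw [integral_const_mul, integral_finsetSum]
    · push_cast
      congr 1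
      refine Finset.sum_congr rfl fun n _ => ?_
      rw [← norm_sq_fc]; push_cast; rfl
    · intro n _
      refine Integrable.mono' (integrable_const (1:ℝ)) ?_ (Eventually.of_forall fun z =>
        (fourier_norm_one _ _).le)
      exact ((map_continuous _).comp (continuous_fst.sub continuous_snd)).aestronglyMeasurable
  simp only [heq] at hlim
  have h := (Complex.continuous_re.tendsto _).comp hlim
  simp only [Function.comp_def, Complex.ofReal_re, Complex.zero_re] at h
  exact h

lemma fc_volume (n : ℤ) (hn : n ≠ 0) : fc (volume : Measure T) n = 0 := by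
  -- choose `y` with `fourier n y ≠ 1`
  have hy : ∃ y : T, (fourier n y : ℂ) ≠ 1 := by
    refine ⟨((1 / (2 * n) : ℝ) : T), ?_⟩
    rw [fourier_coe_apply]
    have : 2 * (Real.pi : ℂ) * Complex.I * n * ((1 / (2 * n) : ℝ) : ℂ) / ((1:ℝ) : ℂ) =
        Real.pi * Complex.I := by
      have : (n : ℂ) ≠ 0 := by exact_mod_cast hn
      push_cast
      field_simp
    rw [this, Complex.exp_pi_mul_I]
    norm_num
  obtain ⟨y, hy⟩ := hy
  have h1 : fc (volume : Measure T) n = fourier n y * fc (volume : Measure T) n := by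
    conv_lhs => rw [fc, ← integral_add_right_eq_self (fun x => (fourier n x : ℂ)) y]
    rw [fc, ← integral_const_mul]
    congr 1; funext x
    rw [fourier_apply, fourier_apply, fourier_apply, smul_add, AddCircle.toCircle_add]
    push_cast; ring
  have h2 : (1 - fourier n y : ℂ) * fc (volume : Measure T) n = 0 := by
    rw [sub_mul, one_mul, sub_eq_zero]; exact h1
  rcases mul_eq_zero.1 h2 with h | h
  · exact absurd (sub_eq_zero.1 h).symm hy
  · exact h


/-- convergence of Fourier coefficients implies weak convergence -/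
theorem weak_of_fc {ι : Type*} (F : Filter ι) (ν : ι → ProbabilityMeasure T) (μ : ProbabilityMeasure T)
    (h : ∀ k : ℤ, Tendsto (fun i => fc (ν i : Measure T) k) F (𝓝 (fc (μ : Measure T) k))) :
    Tendsto ν F (𝓝 μ) := by
  -- the set of good functions
  let V : Submodule ℂ C(T, ℂ) :=
    { carrier := {f | Tendsto (fun i => ∫ x, f x ∂(ν i : Measure T)) F (𝓝 (∫ x, f x ∂(μ : Measure T)))}
      add_mem' := by
        intro f g hf hg
        have hi : ∀ (m : Measure T) [IsFiniteMeasure m] (f : C(T, ℂ)), Integrable (fun x => f x) m :=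
          fun m _ f => Continuous.integrable_of_hasCompactSupport (map_continuous f)
            (HasCompactSupport.of_compactSpace _)
        have e1 : ∀ i, ∫ x, (f + g) x ∂(ν i : Measure T) = (∫ x, f x ∂(ν i : Measure T)) +
            ∫ x, g x ∂(ν i : Measure T) := fun i => by
          rw [← integral_add (hi _ f) (hi _ g)]; rfl
        have e2 : ∫ x, (f + g) x ∂(μ : Measure T) = (∫ x, f x ∂(μ : Measure T)) +
            ∫ x, g x ∂(μ : Measure T) := by
          rw [← integral_add (hi _ f) (hi _ g)]; rfl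
        change Tendsto _ _ _
        simp only [e1, e2]
        exact Tendsto.add hf hg
      zero_mem' := by
        change Tendsto _ _ _
        simp only [ContinuousMap.coe_zero, Pi.zero_apply, integral_zero]
        exact tendsto_const_nhds
      smul_mem' := by
        intro c f hf
        have e1 : ∀ i, ∫ x, (c • f) x ∂(ν i : Measure T) = c * ∫ x, f x ∂(ν i : Measure T) := fun i => by
          rw [← integral_const_mul]; rfl
        have e2 : ∫ x, (c • f) x ∂(μ : Measure T) = c * ∫ x, f x ∂(μ : Measure T) := by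
          rw [← integral_const_mul]; rfl
        change Tendsto _ _ _
        simp only [e1, e2]
        exact Tendsto.const_mul c hf }
  have hspan : Submodule.span ℂ (range (@fourier 1)) ≤ V := by
    rw [Submodule.span_le]
    rintro _ ⟨k, rfl⟩
    exact h k
  have hclosed : IsClosed (V : Set C(T, ℂ)) := by
    rw [← closure_subset_iff_isClosed]
    intro f hf
    change Tendsto _ _ _
    rw [Metric.tendsto_nhds]
    intro ε hε
    obtain ⟨g, hg, hfg⟩ := Metric.mem_closure_iff.1 hf (ε / 3) (by positivity)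
    have hg' : Tendsto (fun i => ∫ x, g x ∂(ν i : Measure T)) F (𝓝 (∫ x, g x ∂(μ : Measure T))) := hg
    filter_upwards [Metric.tendsto_nhds.1 hg' (ε / 3) (by positivity)] with i hi
    have hb : ∀ (m : ProbabilityMeasure T), dist (∫ x, f x ∂(m : Measure T))
        (∫ x, g x ∂(m : Measure T)) ≤ dist f g := by
      intro m
      have hi : ∀ (f : C(T, ℂ)), Integrable (fun x => f x) (m : Measure T) :=
          fun f => Continuous.integrable_of_hasCompactSupport (map_continuous f)
            (HasCompactSupport.of_compactSpace _)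
      rw [dist_eq_norm, ← integral_sub (hi f) (hi g)]
      have := norm_integral_le_of_norm_le_const (μ := (m : Measure T)) (C := dist f g)
        (f := fun x => f x - g x) (Eventually.of_forall fun x => by
          rw [← dist_eq_norm]; exact ContinuousMap.dist_apply_le_dist x)
      simpa using this
    calc dist (∫ x, f x ∂(ν i : Measure T)) (∫ x, f x ∂(μ : Measure T)) ≤
        dist (∫ x, f x ∂(ν i : Measure T)) (∫ x, g x ∂(ν i : Measure T)) +
        dist (∫ x, g x ∂(ν i : Measure T)) (∫ x, g x ∂(μ : Measure T)) +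
        dist (∫ x, g x ∂(μ : Measure T)) (∫ x, f x ∂(μ : Measure T)) := dist_triangle4 _ _ _ _
      _ < ε := by
          have h1 := hb (ν i)
          have h2 := hb μ
          rw [dist_comm (∫ x, g x ∂(μ : Measure T)) (∫ x, f x ∂(μ : Measure T))]
          linarith
  have htop : ∀ f : C(T, ℂ), f ∈ V := by
    intro f
    have h1 := Submodule.topologicalClosure_minimal _ hspan hclosed
    rw [span_fourier_closure_eq_top] at h1
    exact h1 trivial
  rw [ProbabilityMeasure.tendsto_iff_forall_integral_tendsto]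
  intro f
  let g : C(T, ℂ) := ⟨fun x => (f x : ℂ), by fun_prop⟩
  have hg : Tendsto (fun i => ∫ x, ((f x : ℝ) : ℂ) ∂(ν i : Measure T)) F
      (𝓝 (∫ x, ((f x : ℝ) : ℂ) ∂(μ : Measure T))) := htop g
  have h := (Complex.continuous_re.tendsto _).comp hg
  simp only [Function.comp_def, integral_complex_ofReal, Complex.ofReal_re] at h
  exact h

/-- Lebesgue measure as a probability measure -/
noncomputable def lam : ProbabilityMeasure T :=
  ⟨(volume : Measure T), ⟨by rw [AddCircle.measure_univ]; simp⟩⟩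

theorem tendsto_lam {ι : Type*} (F : Filter ι) (ν : ι → ProbabilityMeasure T)
    (h : ∀ k : ℤ, k ≠ 0 → Tendsto (fun i => fc (ν i : Measure T) k) F (𝓝 0)) :
    Tendsto ν F (𝓝 lam) := by
  apply weak_of_fc
  intro k
  by_cases hk : k = 0
  · subst hk
    simp only [fc_zero]
    exact tendsto_const_nhds
  · have : fc (lam : Measure T) k = 0 := fc_volume k hk
    rw [this]; exact h k hk

theorem eq_lam (μ : ProbabilityMeasure T) (h : ∀ k : ℤ, k ≠ 0 → fc (μ : Measure T) k = 0) :
    μ = lam := by
  have h1 : Tendsto (fun _ : ℕ => μ) atTop (𝓝 lam) := by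
    apply tendsto_lam
    intro k hk
    simp only [h k hk]
    exact tendsto_const_nhds
  exact tendsto_nhds_unique tendsto_const_nhds h1

/-- invariance of the Fourier coefficients -/
lemma fc_inv (μ : Measure T) (p : ℕ) (h : MeasurePreserving (fun x : T => p • x) μ μ) (k : ℤ) :
    fc μ (k * p) = fc μ k := by
  rw [← fc_map, h.map_eq]

lemma fc_inv_pow (μ : Measure T) (p : ℕ) (h : MeasurePreserving (fun x : T => p • x) μ μ) (k : ℤ)
    (a : ℕ) : fc μ (k * (p:ℤ) ^ a) = fc μ k := by
  induction a with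
  | zero => simp
  | succ a ih => rw [pow_succ, ← mul_assoc, fc_inv μ p h, ih]

/-- the key nonvanishing: if `μ̂(m) ≠ 0` then for every `d ≥ 1` there is `i ≥ 1` with
`μ̂(m (p^(d i) - 1)) ≠ 0` -/
theorem nonvanish (μ : Measure T) [IsProbabilityMeasure μ] (p : ℕ)
    (h : MeasurePreserving (fun x : T => p • x) μ μ) (m : ℤ) (hm : fc μ m ≠ 0) (d : ℕ) :
    ∃ i : ℕ, 1 ≤ i ∧ fc μ (m * ((p:ℤ) ^ (d * i) - 1)) ≠ 0 := by
  by_contra hcon
  push Not at hcon
  set c := fc μ m with hc
  have hcpos : 0 < ‖c‖ ^ 2 := by positivity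
  obtain ⟨N, hN⟩ := exists_nat_gt (1 / ‖c‖ ^ 2)
  have hN' : 1 < N * ‖c‖ ^ 2 := by rwa [div_lt_iff₀ hcpos] at hN
  -- the function `1 - Σ conj(c) f_i` has nonnegative square norm
  set f : ℕ → T → ℂ := fun i x => fourier (m * (p:ℤ) ^ (d * i)) x with hf
  have hfi : ∀ i, Integrable (f i) μ := fun i => fourier_int μ _
  have horth : ∀ i j, i < j → ∫ x, (starRingEnd ℂ) (f i x) * f j x ∂μ = 0 := by
    intro i j hij
    have e1 : ∀ x, (starRingEnd ℂ) (f i x) * f j x =
        fourier (m * ((p:ℤ) ^ (d * (j - i)) - 1) * (p:ℤ) ^ (d * i)) x := by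
      intro x
      simp only [hf]
      rw [← fourier_neg, ← fourier_add]
      congr 2
      have : d * j = d * (j - i) + d * i := by rw [← Nat.mul_add]; congr 1; omega
      rw [this, pow_add]; ring
    simp only [e1]
    change fc μ _ = 0
    rw [fc_inv_pow μ p h]
    exact hcon (j - i) (by omega)
  have horth' : ∀ i j, i ≠ j → ∫ x, (starRingEnd ℂ) (f i x) * f j x ∂μ = 0 := by
    intro i j hij
    rcases lt_or_gt_of_ne hij with h1 | h1
    · exact horth i j h1
    · have h2 := horth j i h1
      have h3 := congrArg (starRingEnd ℂ) h2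
      rw [← integral_conj, map_zero] at h3
      rw [← h3]
      congr 1; funext x
      rw [map_mul, Complex.conj_conj, mul_comm]
  have hself : ∀ i, ∫ x, (starRingEnd ℂ) (f i x) * f i x ∂μ = 1 := by
    intro i
    have : ∀ x, (starRingEnd ℂ) (f i x) * f i x = 1 := by
      intro x
      rw [mul_comm, Complex.mul_conj, Complex.normSq_eq_norm_sq, hf]
      simp only
      rw [fourier_norm_one]; norm_num
    simp [this]
  have hone : ∀ i, ∫ x, f i x ∂μ = c := fun i => fc_inv_pow μ p h m (d * i)
  have hone' : ∀ i, ∫ x, (starRingEnd ℂ) (f i x) ∂μ = (starRingEnd ℂ) c := fun i => by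
    rw [integral_conj, hone]
  have hprod : ∀ i j, Integrable (fun x => (starRingEnd ℂ) (f i x) * f j x) μ := by
    intro i j
    refine Integrable.mono' (integrable_const (1:ℝ)) ?_ (Eventually.of_forall fun x => ?_)
    · apply Continuous.aestronglyMeasurable
      exact (Complex.continuous_conj.comp (map_continuous _)).mul (map_continuous _)
    · rw [norm_mul, RCLike.norm_conj, hf]; simp only; rw [fourier_norm_one, fourier_norm_one]; norm_num
  have hfic : ∀ i, Integrable (fun x => (starRingEnd ℂ) (f i x)) μ := fun i => by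
    refine Integrable.mono' (integrable_const (1:ℝ)) ?_ (Eventually.of_forall fun x => ?_)
    · exact (Complex.continuous_conj.comp (map_continuous _)).aestronglyMeasurable
    · rw [RCLike.norm_conj, hf]; simp only; rw [fourier_norm_one]
  have hI : (∫ x, (starRingEnd ℂ) (1 - (starRingEnd ℂ) c * ∑ i ∈ Finset.range N, f i x) *
      (1 - (starRingEnd ℂ) c * ∑ i ∈ Finset.range N, f i x) ∂μ) = 1 - N * ((‖c‖ ^ 2 : ℝ) : ℂ) := by
    have e1 : ∀ x, (starRingEnd ℂ) (1 - (starRingEnd ℂ) c * ∑ i ∈ Finset.range N, f i x) *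
      (1 - (starRingEnd ℂ) c * ∑ i ∈ Finset.range N, f i x) =
        1 - (starRingEnd ℂ) c * (∑ i ∈ Finset.range N, f i x) -
        c * (∑ i ∈ Finset.range N, (starRingEnd ℂ) (f i x)) +
        c * (starRingEnd ℂ) c * ∑ i ∈ Finset.range N, ∑ j ∈ Finset.range N,
          (starRingEnd ℂ) (f i x) * f j x := by
      intro x
      rw [← Finset.sum_mul_sum, map_sub, map_one, map_mul, map_sum, Complex.conj_conj]
      ring
    simp only [e1]
    have i1 : Integrable (fun x => (starRingEnd ℂ) c * ∑ i ∈ Finset.range N, f i x) μ :=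
      (integrable_finsetSum _ fun i _ => hfi i).const_mul _
    have i2 : Integrable (fun x => c * ∑ i ∈ Finset.range N, (starRingEnd ℂ) (f i x)) μ :=
      (integrable_finsetSum _ fun i _ => hfic i).const_mul _
    have i3 : Integrable (fun x => c * (starRingEnd ℂ) c * ∑ i ∈ Finset.range N,
        ∑ j ∈ Finset.range N, (starRingEnd ℂ) (f i x) * f j x) μ :=
      (integrable_finsetSum _ fun i _ => integrable_finsetSum _ fun j _ => hprod i j).const_mul _
    have i0 : Integrable (fun _ : T => (1:ℂ)) μ := integrable_const _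
    have i01 : Integrable (fun x => 1 - (starRingEnd ℂ) c * ∑ i ∈ Finset.range N, f i x) μ := i0.sub i1
    have i012 : Integrable (fun x => 1 - (starRingEnd ℂ) c * (∑ i ∈ Finset.range N, f i x) -
        c * (∑ i ∈ Finset.range N, (starRingEnd ℂ) (f i x))) μ := i01.sub i2
    rw [integral_add i012 i3, integral_sub i01 i2, integral_sub i0 i1,
      integral_const_mul, integral_const_mul, integral_const_mul,
      integral_finsetSum _ fun i _ => hfi i, integral_finsetSum _ fun i _ => hfic i,
      integral_finsetSum _ fun i _ => integrable_finsetSum _ fun j _ => hprod i j]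
    have e2 : ∀ i ∈ Finset.range N, (∫ x, ∑ j ∈ Finset.range N, (starRingEnd ℂ) (f i x) * f j x ∂μ)
        = 1 := by
      intro i hi
      rw [integral_finsetSum _ fun j _ => hprod i j, Finset.sum_eq_single i]
      · exact hself i
      · intro j _ hj; exact horth' i j (Ne.symm hj)
      · intro hi'; exact absurd hi hi'
    rw [Finset.sum_congr rfl e2]
    simp only [hone, hone', Finset.sum_const, Finset.card_range, nsmul_eq_mul, mul_one]
    have e3 : c * (starRingEnd ℂ) c = ((‖c‖ ^ 2 : ℝ) : ℂ) := by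
      rw [Complex.mul_conj, Complex.normSq_eq_norm_sq]
    have e4 : ∫ _x : T, (1:ℂ) ∂μ = 1 := by simp
    rw [e4, ← e3]
    ring
  have hnn : 0 ≤ (∫ x, (starRingEnd ℂ) (1 - (starRingEnd ℂ) c * ∑ i ∈ Finset.range N, f i x) *
      (1 - (starRingEnd ℂ) c * ∑ i ∈ Finset.range N, f i x) ∂μ).re := by
    have e1 : ∀ x, (starRingEnd ℂ) (1 - (starRingEnd ℂ) c * ∑ i ∈ Finset.range N, f i x) *
      (1 - (starRingEnd ℂ) c * ∑ i ∈ Finset.range N, f i x) =
      ((‖1 - (starRingEnd ℂ) c * ∑ i ∈ Finset.range N, f i x‖ ^ 2 : ℝ) : ℂ) := by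
      intro x
      rw [mul_comm, Complex.mul_conj, Complex.normSq_eq_norm_sq]
    simp only [e1]
    rw [integral_complex_ofReal, Complex.ofReal_re]
    exact integral_nonneg fun x => by positivity
  rw [hI] at hnn
  have : (1 - (N:ℂ) * ((‖c‖ ^ 2 : ℝ) : ℂ)).re = 1 - N * ‖c‖ ^ 2 := by
    have : (1 - (N:ℂ) * ((‖c‖ ^ 2 : ℝ) : ℂ)) = ((1 - N * ‖c‖ ^ 2 : ℝ) : ℂ) := by push_cast; ring
    rw [this, Complex.ofReal_re]
  rw [this] at hnn
  linarith

/-- the image of a non-Lebesgue invariant measure under `x ↦ n x` is never Lebesgue -/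
theorem map_ne (μ : ProbabilityMeasure T) (p : ℕ) (hp : 2 ≤ p)
    (h1 : MeasurePreserving (fun x : T => p • x) (μ : Measure T) μ) (hne : μ ≠ lam) (n : ℕ)
    (hn : 1 ≤ n) : ∃ k : ℤ, k ≠ 0 ∧ fc ((μ : Measure T).map (fun x => n • x)) k ≠ 0 := by
  -- a nonzero coefficient
  obtain ⟨m, hm0, hm⟩ : ∃ m : ℤ, m ≠ 0 ∧ fc (μ : Measure T) m ≠ 0 := by
    by_contra hcon
    push Not at hcon
    exact hne (eq_lam μ hcon)
  -- decompose `n = n1 * n2` with `n1 ∣ p^N` and `n2` coprime to `p`
  obtain ⟨n1, n2, N, hn12, hn1, hn2⟩ : ∃ n1 n2 N : ℕ, n = n1 * n2 ∧ n1 ∣ p ^ N ∧ Nat.Coprime p n2 := by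
    -- strong induction
    clear hm hm0 hne h1
    induction n using Nat.strong_induction_on with
    | _ n ih =>
      by_cases hc : Nat.Coprime p n
      · exact ⟨1, n, 0, by simp, by simp, hc⟩
      · set g := Nat.gcd p n with hg
        have hg1 : g ≠ 1 := hc
        have hg0 : 0 < g := Nat.gcd_pos_of_pos_right _ (by omega)
        have hgn : g ∣ n := Nat.gcd_dvd_right _ _
        have hgp : g ∣ p := Nat.gcd_dvd_left _ _
        obtain ⟨n', hn'⟩ := hgn
        have hn'0 : 1 ≤ n' := by
          rcases Nat.eq_zero_or_pos n' with h | h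
          · subst h; omega
          · exact h
        have hlt : n' < n := by
          rw [hn']
          have : 2 ≤ g := by omega
          nlinarith
        obtain ⟨a, b, M, h3, h4, h5⟩ := ih n' hlt hn'0
        refine ⟨g * a, b, M + 1, ?_, ?_, h5⟩
        · rw [hn', h3]; ring
        · rw [pow_succ, mul_comm (p ^ M)]; exact mul_dvd_mul hgp h4
  have hm' : fc (μ : Measure T) (m * (p:ℤ) ^ N) ≠ 0 := by rwa [fc_inv_pow _ p h1]
  obtain ⟨i, hi, hnz⟩ := nonvanish (μ : Measure T) p h1 (m * (p:ℤ) ^ N) hm' (Nat.totient n2)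
  obtain ⟨e, he⟩ := hn1
  have hdvd : (n2 : ℤ) ∣ (p:ℤ) ^ (Nat.totient n2 * i) - 1 := by
    have h3 := Nat.ModEq.pow_totient hn2
    have h4 := h3.pow i
    rw [one_pow, ← pow_mul] at h4
    have h5 := (Nat.modEq_iff_dvd.1 h4.symm)
    push_cast at h5
    exact h5
  obtain ⟨e2, he2⟩ := hdvd
  have hkey : m * e * e2 * (n:ℤ) = m * (p:ℤ) ^ N * ((p:ℤ) ^ (Nat.totient n2 * i) - 1) := by
    have h6 : (p:ℤ) ^ N = n1 * e := by exact_mod_cast he
    rw [he2, h6, hn12]; push_cast; ring
  refine ⟨m * e * e2, ?_, ?_⟩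
  · intro h0
    rw [h0, zero_mul] at hkey
    have hp0 : (p:ℤ) ≠ 0 := by positivity
    have hn20 : 0 < n2 := by
      rcases Nat.eq_zero_or_pos n2 with h | h
      · subst h; simp at hn12; omega
      · exact h
    have hd : 1 ≤ Nat.totient n2 * i := Nat.mul_pos (Nat.totient_pos.2 hn20) hi
    have hpow : (2:ℤ) ≤ (p:ℤ) ^ (Nat.totient n2 * i) := by
      calc (2:ℤ) ≤ p := by exact_mod_cast hp
        _ = (p:ℤ) ^ 1 := (pow_one _).symm
        _ ≤ _ := pow_le_pow_right₀ (by omega) hd
    rcases mul_eq_zero.1 hkey.symm with h | h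
    · rcases mul_eq_zero.1 h with h | h
      · exact hm0 h
      · exact pow_ne_zero _ hp0 h
    · omega
  · rw [fc_map, hkey]; exact hnz

end Pool.Agent.H906R2.LG
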