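import Pool.Agent.H906R2.LGa

set_option autoImplicit false

open MeasureTheory Filter Topology Set
open scoped BoundedContinuousFunction ENNReal

namespace Pool.Agent.H906R2.LG

/-- invariance under both maps -/
def Inv (p q : ℕ) (μ : Measure T) : Prop :=
  MeasurePreserving (fun x : T => p • x) μ μ ∧ MeasurePreserving (fun x : T => q • x) μ μ

/-- ergodicity for the joint action of both maps -/
def Erg (p q : ℕ) (μ : Measure T) : Prop :=
  ∀ B : Set T, MeasurableSet B → (fun x : T => p • x) ⁻¹' B = B → (fun x : T => q • x) ⁻¹' B = B →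
    μ B = 0 ∨ μ B = 1

/-- the image of a measure under `x ↦ n x` -/
noncomputable def push (n : ℕ) (μ : ProbabilityMeasure T) : ProbabilityMeasure T :=
  μ.map (nsmul_meas n).aemeasurable

lemma push_coe (n : ℕ) (μ : ProbabilityMeasure T) :
    ((push n μ : ProbabilityMeasure T) : Measure T) = (μ : Measure T).map (fun x => n • x) := rfl

lemma mp_push (μ : Measure T) (n p : ℕ) (h : MeasurePreserving (fun x : T => p • x) μ μ) :
    MeasurePreserving (fun x : T => p • x) (μ.map (fun x => n • x)) (μ.map (fun x => n • x)) := by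
  refine ⟨nsmul_meas p, ?_⟩
  rw [Measure.map_map (nsmul_meas p) (nsmul_meas n)]
  have : (fun x : T => p • x) ∘ (fun x => n • x) = (fun x : T => n • x) ∘ (fun x => p • x) := by
    funext x; simp only [Function.comp]; rw [smul_smul, smul_smul, mul_comm]
  rw [this, ← Measure.map_map (nsmul_meas n) (nsmul_meas p), h.map_eq]

lemma inv_push (p q n : ℕ) (μ : ProbabilityMeasure T) (h : Inv p q μ) :
    Inv p q (push n μ : ProbabilityMeasure T) :=
  ⟨mp_push _ n p h.1, mp_push _ n q h.2⟩

lemma erg_push (p q n : ℕ) (μ : ProbabilityMeasure T) (h : Erg p q μ) :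
    Erg p q (push n μ : ProbabilityMeasure T) := by
  intro B hB h1 h2
  rw [push_coe, Measure.map_apply (nsmul_meas n) hB]
  apply h _ (nsmul_meas n hB)
  · ext x
    have e : p • n • x = n • p • x := by rw [smul_smul, smul_smul, mul_comm]
    have h3 : n • x ∈ (fun x : T => p • x) ⁻¹' B ↔ n • x ∈ B := by rw [h1]
    simp only [mem_preimage] at h3 ⊢
    rw [← e]; exact h3
  · ext x
    have e : q • n • x = n • q • x := by rw [smul_smul, smul_smul, mul_comm]
    have h3 : n • x ∈ (fun x : T => q • x) ⁻¹' B ↔ n • x ∈ B := by rw [h2]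
    simp only [mem_preimage] at h3 ⊢
    rw [← e]; exact h3

lemma noAtoms_push (n : ℕ) (hn : 1 ≤ n) (μ : ProbabilityMeasure T) (h : NullSingletonClass (μ : Measure T)) :
    NullSingletonClass ((push n μ : ProbabilityMeasure T) : Measure T) := by
  constructor
  intro x
  rw [push_coe, Measure.map_apply (nsmul_meas n) (measurableSet_singleton x)]
  apply Set.Finite.measure_zero
  -- the fibre is a translate of the torsion
  by_cases hx : ∃ y : T, n • y = x
  · obtain ⟨y, hy⟩ := hx
    refine ((AddCircle.finite_torsion (p := (1:ℝ)) (n := n) (by omega)).image (fun u => y + u)).subset ?_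
    intro z hz
    refine ⟨z - y, ?_, by simp⟩
    have hz' : n • z = x := hz
    change n • (z - y) = 0
    rw [smul_sub, hz', hy, sub_self]
  · have : (fun x : T => n • x) ⁻¹' {x} = ∅ := by
      ext z
      simp only [mem_preimage, mem_singleton_iff, mem_empty_iff_false, iff_false]
      exact fun h => hx ⟨z, h⟩
    rw [this]; exact finite_empty

/-! ### density-one convergence -/

/-- the filter of sets of natural numbers of density one -/
noncomputable def dens : Filter ℕ where
  sets := {A | Tendsto (fun N : ℕ => (1 / (N:ℝ)) * Set.ncard {n : ℕ | n < N ∧ n ∉ A}) atTop (𝓝 0)}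
  univ_sets := by
    change Tendsto _ _ _
    have : ∀ N : ℕ, Set.ncard {n : ℕ | n < N ∧ n ∉ (univ : Set ℕ)} = 0 := by
      intro N
      have : {n : ℕ | n < N ∧ n ∉ (univ : Set ℕ)} = ∅ := by
        ext n; simp
      rw [this, Set.ncard_empty]
    simp only [this, Nat.cast_zero, mul_zero]
    exact tendsto_const_nhds
  sets_of_superset := by
    intro A B hA hAB
    change Tendsto _ _ _
    refine squeeze_zero (fun N => by positivity) (fun N => ?_) hA
    apply mul_le_mul_of_nonneg_left _ (by positivity)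
    have h1 : Set.ncard {n : ℕ | n < N ∧ n ∉ B} ≤ Set.ncard {n : ℕ | n < N ∧ n ∉ A} :=
      Set.ncard_le_ncard (fun n hn => ⟨hn.1, fun h => hn.2 (hAB h)⟩)
        ((Set.finite_lt_nat N).subset fun n hn => hn.1)
    exact_mod_cast h1
  inter_sets := by
    intro A B hA hB
    change Tendsto _ _ _
    have hAB := Tendsto.add (show Tendsto _ _ _ from hA) (show Tendsto _ _ _ from hB)
    rw [add_zero] at hAB
    refine squeeze_zero (fun N => by positivity) (fun N => ?_) hAB
    rw [← mul_add]
    apply mul_le_mul_of_nonneg_left _ (by positivity)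
    have hset : {n : ℕ | n < N ∧ n ∉ A ∩ B} ⊆ {n : ℕ | n < N ∧ n ∉ A} ∪ {n : ℕ | n < N ∧ n ∉ B} := by
      intro n hn
      by_cases h : n ∈ A
      · exact Or.inr ⟨hn.1, fun h' => hn.2 ⟨h, h'⟩⟩
      · exact Or.inl ⟨hn.1, h⟩
    have h1 : Set.ncard {n : ℕ | n < N ∧ n ∉ A ∩ B} ≤
        Set.ncard {n : ℕ | n < N ∧ n ∉ A} + Set.ncard {n : ℕ | n < N ∧ n ∉ B} :=
      (Set.ncard_le_ncard hset (((Set.finite_lt_nat N).subset fun n hn => hn.1).union
        ((Set.finite_lt_nat N).subset fun n hn => hn.1))).trans (Set.ncard_union_le _ _)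
    exact_mod_cast h1

lemma mem_dens (A : Set ℕ) : A ∈ dens ↔
    Tendsto (fun N : ℕ => (1 / (N:ℝ)) * Set.ncard {n : ℕ | n < N ∧ n ∉ A}) atTop (𝓝 0) := Iff.rfl

lemma tendsto_dens (f : ℕ → ℂ)
    (h : Tendsto (fun N : ℕ => (1 / (N:ℝ)) * ∑ n ∈ Finset.range N, ‖f n‖ ^ 2) atTop (𝓝 0)) :
    Tendsto f dens (𝓝 0) := by
  rw [Metric.tendsto_nhds]
  intro ε hε
  change {n | dist (f n) 0 < ε} ∈ dens
  rw [mem_dens]
  have h2 := h.const_mul (1 / ε ^ 2)
  rw [mul_zero] at h2
  refine squeeze_zero (fun N => by positivity) (fun N => ?_) h2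
  have h3 : (Set.ncard {n : ℕ | n < N ∧ n ∉ {n | dist (f n) 0 < ε}} : ℝ) ≤
      (1 / ε ^ 2) * ∑ n ∈ Finset.range N, ‖f n‖ ^ 2 := by
    classical
    have e1 : Set.ncard {n : ℕ | n < N ∧ n ∉ {n | dist (f n) 0 < ε}} =
        ((Finset.range N).filter (fun n => ε ≤ ‖f n‖)).card := by
      rw [← Set.ncard_coe_finset]
      congr 1
      ext n
      simp
    rw [e1]
    have e2 : (((Finset.range N).filter (fun n => ε ≤ ‖f n‖)).card : ℝ) * ε ^ 2 ≤
        ∑ n ∈ Finset.range N, ‖f n‖ ^ 2 := by
      calc _ = ∑ n ∈ (Finset.range N).filter (fun n => ε ≤ ‖f n‖), ε ^ 2 := by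
            rw [Finset.sum_const, nsmul_eq_mul]
        _ ≤ ∑ n ∈ (Finset.range N).filter (fun n => ε ≤ ‖f n‖), ‖f n‖ ^ 2 := by
            apply Finset.sum_le_sum
            intro n hn
            rw [Finset.mem_filter] at hn
            exact pow_le_pow_left₀ hε.le hn.2 2
        _ ≤ _ := Finset.sum_le_sum_of_subset_of_nonneg (Finset.filter_subset _ _)
            fun n _ _ => by positivity
    rw [one_div, inv_mul_eq_div, le_div_iff₀ (by positivity)]
    exact e2
  calc (1 / (N:ℝ)) * Set.ncard {n : ℕ | n < N ∧ n ∉ {n | dist (f n) 0 < ε}} ≤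
        (1 / (N:ℝ)) * ((1 / ε ^ 2) * ∑ n ∈ Finset.range N, ‖f n‖ ^ 2) := by gcongr
    _ = _ := by ring

/-- Along a set of density one, the images of an atomless measure converge to Lebesgue measure. -/
theorem push_tendsto (μ : ProbabilityMeasure T) (h : NullSingletonClass (μ : Measure T)) :
    Tendsto (fun n : ℕ => push (n + 1) μ) dens (𝓝 lam) := by
  apply tendsto_lam
  intro k hk
  have e : (fun n : ℕ => fc ((push (n + 1) μ : ProbabilityMeasure T) : Measure T) k) =
      fun n : ℕ => fc (μ : Measure T) (k * ((n + 1 : ℕ) : ℤ)) := by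
    funext n
    rw [push_coe, fc_map]
  rw [e]
  apply tendsto_dens
  exact wiener (μ : Measure T) k hk


/-! ### existence of an ergodic measure -/

lemma continuous_fc (k : ℤ) : Continuous (fun ν : ProbabilityMeasure T => fc (ν : Measure T) k) := by
  let g1 : T →ᵇ ℝ := BoundedContinuousFunction.mkOfCompact ⟨fun x => (fourier k x : ℂ).re, by fun_prop⟩
  let g2 : T →ᵇ ℝ := BoundedContinuousFunction.mkOfCompact ⟨fun x => (fourier k x : ℂ).im, by fun_prop⟩
  have h1 := ProbabilityMeasure.continuous_integral_boundedContinuousFunction g1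
  have h2 := ProbabilityMeasure.continuous_integral_boundedContinuousFunction g2
  have e : (fun ν : ProbabilityMeasure T => fc (ν : Measure T) k) =
      fun ν : ProbabilityMeasure T => ((∫ x, g1 x ∂(ν : Measure T) : ℝ) : ℂ) +
        ((∫ x, g2 x ∂(ν : Measure T) : ℝ) : ℂ) * Complex.I := by
    funext ν
    have hi := fourier_int (ν : Measure T) k
    have hr : (∫ x, g1 x ∂(ν : Measure T)) = (fc (ν : Measure T) k).re := by
      rw [fc]; exact (integral_re hi)
    have him : (∫ x, g2 x ∂(ν : Measure T)) = (fc (ν : Measure T) k).im := by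
      rw [fc]; exact (integral_im hi)
    rw [hr, him, Complex.re_add_im]
  rw [e]
  exact (Complex.continuous_ofReal.comp h1).add ((Complex.continuous_ofReal.comp h2).mul continuous_const)

/-- strictly convex continuous functional -/
noncomputable def Phi (ν : ProbabilityMeasure T) : ℝ := ∑' k : ℕ, (1 / 2 : ℝ) ^ k * ‖fc (ν : Measure T) k‖ ^ 2

lemma phi_term_le (ν : ProbabilityMeasure T) (k : ℕ) :
    ‖(1 / 2 : ℝ) ^ k * ‖fc (ν : Measure T) k‖ ^ 2‖ ≤ (1 / 2 : ℝ) ^ k := by
  have h1 := fc_norm_le (ν : Measure T) k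
  rw [Real.norm_eq_abs, abs_of_nonneg (by positivity)]
  have h2 : ‖fc (ν : Measure T) k‖ ^ 2 ≤ 1 := pow_le_one₀ (norm_nonneg _) h1
  calc _ ≤ (1 / 2 : ℝ) ^ k * 1 := by gcongr
    _ = _ := mul_one _

lemma summable_half : Summable (fun k : ℕ => (1 / 2 : ℝ) ^ k) :=
  summable_geometric_of_lt_one (by norm_num) (by norm_num)

lemma continuous_Phi : Continuous Phi := by
  apply continuous_tsum _ summable_half (fun k ν => phi_term_le ν k)
  intro k
  exact continuous_const.mul ((continuous_fc k).norm.pow 2)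

lemma phi_summable (ν : ProbabilityMeasure T) :
    Summable (fun k : ℕ => (1 / 2 : ℝ) ^ k * ‖fc (ν : Measure T) k‖ ^ 2) :=
  Summable.of_norm_bounded summable_half (phi_term_le ν)

/-- equality of nonnegative Fourier coefficients implies equality -/
lemma eq_of_fc (μ ν : ProbabilityMeasure T)
    (h : ∀ k : ℕ, fc (μ : Measure T) k = fc (ν : Measure T) k) : μ = ν := by
  have h' : ∀ k : ℤ, fc (μ : Measure T) k = fc (ν : Measure T) k := by
    intro k
    rcases Int.eq_nat_or_neg k with ⟨n, hn | hn⟩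
    · rw [hn]; exact h n
    · rw [hn, ← conj_fc, ← conj_fc, h n]
  have h1 : Tendsto (fun _ : ℕ => μ) atTop (𝓝 ν) := by
    apply weak_of_fc
    intro k
    simp only [h' k]
    exact tendsto_const_nhds
  exact tendsto_nhds_unique tendsto_const_nhds h1

/-- normalised restriction to an invariant set -/
lemma inv_cond (p q : ℕ) (ν : ProbabilityMeasure T) (h : Inv p q ν) (B : Set T)
    (hB : MeasurableSet B) (h1 : (fun x : T => p • x) ⁻¹' B = B) (h2 : (fun x : T => q • x) ⁻¹' B = B) :
    Inv p q (((ν : Measure T) B)⁻¹ • (ν : Measure T).restrict B) := by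
  constructor
  · have h3 := h.1.restrict_preimage hB
    rw [h1] at h3
    exact h3.smul_measure _
  · have h3 := h.2.restrict_preimage hB
    rw [h2] at h3
    exact h3.smul_measure _

lemma isClosed_inv (p q : ℕ) : IsClosed {ν : ProbabilityMeasure T | Inv p q ν} := by
  have h1 : ∀ n : ℕ, IsClosed {ν : ProbabilityMeasure T | push n ν = ν} := by
    intro n
    apply isClosed_eq _ continuous_id
    exact ProbabilityMeasure.continuous_map (continuous_nsmul n)
  have h2 : {ν : ProbabilityMeasure T | Inv p q ν} =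
      {ν : ProbabilityMeasure T | push p ν = ν} ∩ {ν : ProbabilityMeasure T | push q ν = ν} := by
    ext ν
    constructor
    · rintro ⟨h3, h4⟩
      exact ⟨Subtype.ext h3.map_eq, Subtype.ext h4.map_eq⟩
    · rintro ⟨h3, h4⟩
      exact ⟨⟨nsmul_meas p, congrArg Subtype.val h3⟩, ⟨nsmul_meas q, congrArg Subtype.val h4⟩⟩
  rw [h2]
  exact (h1 p).inter (h1 q)

/-- a closed set charged by an invariant measure is charged by an ergodic one -/
theorem exists_erg (p q : ℕ) (μ : ProbabilityMeasure T) (hμ : Inv p q μ) (K : Set T) (hK : IsClosed K) :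
    ∃ ν : ProbabilityMeasure T, Inv p q ν ∧ Erg p q ν ∧ (μ : Measure T) K ≤ (ν : Measure T) K := by
  have husc : UpperSemicontinuous (fun ν : ProbabilityMeasure T => (ν : Measure T) K) := by
    rw [upperSemicontinuous_iff_limsup_le]
    intro ν
    exact ProbabilityMeasure.limsup_measure_closed_le_of_tendsto (μs := fun ν => ν) tendsto_id hK
  obtain ⟨ν0, hν0, hmax⟩ := UpperSemicontinuousOn.exists_isMaxOn (s := {ν : ProbabilityMeasure T | Inv p q ν})
    (f := fun ν : ProbabilityMeasure T => (ν : Measure T) K)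
    ⟨μ, hμ⟩ (isClosed_inv p q).isCompact (husc.upperSemicontinuousOn _)
  set m := (ν0 : Measure T) K with hm
  have hF : IsCompact ({ν : ProbabilityMeasure T | Inv p q ν} ∩
      (fun ν : ProbabilityMeasure T => (ν : Measure T) K) ⁻¹' Ici m) :=
    ((isClosed_inv p q).inter (husc.isClosed_preimage m)).isCompact
  obtain ⟨ν, hν, hνmax⟩ := hF.exists_isMaxOn ⟨ν0, hν0, le_refl m⟩ continuous_Phi.continuousOn
  have hmμ : (μ : Measure T) K ≤ m := hmax hμ
  refine ⟨ν, hν.1, ?_, hmμ.trans hν.2⟩
  intro B hB h1 h2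
  by_contra hcon
  push Not at hcon
  obtain ⟨hB0, hB1⟩ := hcon
  set a := (ν : Measure T) B with ha
  have hac : (ν : Measure T) Bᶜ = 1 - a := prob_compl_eq_one_sub hB
  have hale : a ≤ 1 := prob_le_one
  have hB1' : 1 - a ≠ 0 := by
    intro h
    exact hB1 (le_antisymm hale (tsub_eq_zero_iff_le.1 h))
  have hanetop : a ≠ ⊤ := measure_ne_top _ _
  -- the two pieces
  have hp1 : IsProbabilityMeasure (a⁻¹ • (ν : Measure T).restrict B) := ⟨by
    rw [Measure.smul_apply, Measure.restrict_apply_univ, smul_eq_mul]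
    exact ENNReal.inv_mul_cancel hB0 hanetop⟩
  have hp2 : IsProbabilityMeasure (((ν : Measure T) Bᶜ)⁻¹ • (ν : Measure T).restrict Bᶜ) := ⟨by
    rw [Measure.smul_apply, Measure.restrict_apply_univ, smul_eq_mul]
    exact ENNReal.inv_mul_cancel (by rw [hac]; exact hB1') (measure_ne_top _ _)⟩
  set ν1 : ProbabilityMeasure T := ⟨_, hp1⟩ with hν1
  set ν2 : ProbabilityMeasure T := ⟨_, hp2⟩ with hν2
  have hi1 : Inv p q ν1 := inv_cond p q ν hν.1 B hB h1 h2
  have hi2 : Inv p q ν2 := inv_cond p q ν hν.1 Bᶜ hB.compl (by rw [preimage_compl, h1])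
    (by rw [preimage_compl, h2])
  have hm1 : (ν1 : Measure T) K ≤ m := hmax hi1
  have hm2 : (ν2 : Measure T) K ≤ m := hmax hi2
  have hdecomp : (ν : Measure T) = a • (ν1 : Measure T) + (1 - a) • (ν2 : Measure T) := by
    change (ν : Measure T) = a • (a⁻¹ • (ν : Measure T).restrict B) +
      (1 - a) • (((ν : Measure T) Bᶜ)⁻¹ • (ν : Measure T).restrict Bᶜ)
    rw [smul_smul, smul_smul, hac, ENNReal.mul_inv_cancel hB0 hanetop,
      ENNReal.mul_inv_cancel hB1' (by finiteness), one_smul, one_smul,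
      Measure.restrict_add_restrict_compl hB]
  have hKdec : (ν : Measure T) K = a * (ν1 : Measure T) K + (1 - a) * (ν2 : Measure T) K := by
    conv_lhs => rw [hdecomp]
    simp only [Measure.coe_add, Measure.coe_smul, Pi.add_apply, Pi.smul_apply, smul_eq_mul]
  have hmle : m ≤ (ν : Measure T) K := hν.2
  have hsum1 : a + (1 - a) = 1 := add_tsub_cancel_of_le hale
  have hmfin : m ≠ ⊤ := measure_ne_top _ _
  have hk1 : m ≤ (ν1 : Measure T) K := by
    by_contra hlt
    push Not at hlt
    have : (ν : Measure T) K < m := by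
      rw [hKdec]
      calc a * (ν1 : Measure T) K + (1 - a) * (ν2 : Measure T) K < a * m + (1 - a) * m := by
            apply ENNReal.add_lt_add_of_lt_of_le (by finiteness)
            · exact (ENNReal.mul_lt_mul_iff_right hB0 hanetop).2 hlt
            · gcongr
        _ = m := by rw [← add_mul, hsum1, one_mul]
    exact absurd hmle (not_le.2 this)
  have hk2 : m ≤ (ν2 : Measure T) K := by
    by_contra hlt
    push Not at hlt
    have : (ν : Measure T) K < m := by
      rw [hKdec]
      calc a * (ν1 : Measure T) K + (1 - a) * (ν2 : Measure T) K < a * m + (1 - a) * m := by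
            apply ENNReal.add_lt_add_of_le_of_lt (by finiteness)
            · gcongr
            · exact (ENNReal.mul_lt_mul_iff_right hB1' (by finiteness)).2 hlt
        _ = m := by rw [← add_mul, hsum1, one_mul]
    exact absurd hmle (not_le.2 this)
  have hP1 : Phi ν1 ≤ Phi ν := hνmax ⟨hi1, hk1⟩
  have hP2 : Phi ν2 ≤ Phi ν := hνmax ⟨hi2, hk2⟩
  -- convexity
  set t : ℝ := a.toReal with ht
  have ht0 : 0 < t := ENNReal.toReal_pos hB0 hanetop
  have ht1 : (1 - a).toReal = 1 - t := by rw [ENNReal.toReal_sub_of_le hale (by simp)]; simp [ht]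
  have ht2 : 0 < 1 - t := by rw [← ht1]; exact ENNReal.toReal_pos hB1' (by finiteness)
  have hfc : ∀ k : ℤ, fc (ν : Measure T) k = (t : ℂ) * fc (ν1 : Measure T) k +
      ((1 - t : ℝ) : ℂ) * fc (ν2 : Measure T) k := by
    intro k
    have e : fc (ν : Measure T) k = ∫ x, (fourier k x : ℂ) ∂(a • (ν1 : Measure T) + (1 - a) • (ν2 : Measure T)) := by
      rw [fc]; conv_lhs => rw [hdecomp]
    rw [e, integral_add_measure ((fourier_int _ k).smul_measure hanetop)
      ((fourier_int _ k).smul_measure (by finiteness)), integral_smul_measure, integral_smul_measure,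
      ht1, ← ht, Complex.real_smul, Complex.real_smul]
    rfl
  have hterm : ∀ k : ℕ, (1 / 2 : ℝ) ^ k * ‖fc (ν : Measure T) k‖ ^ 2 =
      t * ((1 / 2 : ℝ) ^ k * ‖fc (ν1 : Measure T) k‖ ^ 2) +
      (1 - t) * ((1 / 2 : ℝ) ^ k * ‖fc (ν2 : Measure T) k‖ ^ 2) -
      t * (1 - t) * ((1 / 2 : ℝ) ^ k * ‖fc (ν1 : Measure T) k - fc (ν2 : Measure T) k‖ ^ 2) := by
    intro k
    rw [hfc]
    have : ∀ u v : ℂ, ‖(t : ℂ) * u + ((1 - t : ℝ) : ℂ) * v‖ ^ 2 =
        t * ‖u‖ ^ 2 + (1 - t) * ‖v‖ ^ 2 - t * (1 - t) * ‖u - v‖ ^ 2 := by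
      intro u v
      rw [← Complex.normSq_eq_norm_sq, ← Complex.normSq_eq_norm_sq, ← Complex.normSq_eq_norm_sq,
        ← Complex.normSq_eq_norm_sq]
      simp only [Complex.normSq_apply, Complex.add_re, Complex.add_im, Complex.mul_re, Complex.mul_im,
        Complex.ofReal_re, Complex.ofReal_im, Complex.sub_re, Complex.sub_im]
      ring
    rw [this]; ring
  have hs1 := phi_summable ν1
  have hs2 := phi_summable ν2
  have hs := phi_summable ν
  have hs3 : Summable (fun k : ℕ => t * (1 - t) * ((1 / 2 : ℝ) ^ k *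
      ‖fc (ν1 : Measure T) k - fc (ν2 : Measure T) k‖ ^ 2)) := by
    have h3 := ((hs1.mul_left t).add (hs2.mul_left (1 - t))).sub hs
    refine h3.congr fun k => ?_
    rw [hterm k]; ring
  have hPhi : Phi ν = t * Phi ν1 + (1 - t) * Phi ν2 - ∑' k : ℕ, t * (1 - t) * ((1 / 2 : ℝ) ^ k *
      ‖fc (ν1 : Measure T) k - fc (ν2 : Measure T) k‖ ^ 2) := by
    rw [Phi, Phi, Phi, ← tsum_mul_left, ← tsum_mul_left, ← (hs1.mul_left t).tsum_add (hs2.mul_left (1 - t)),
      ← ((hs1.mul_left t).add (hs2.mul_left (1 - t))).tsum_sub hs3]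
    exact tsum_congr hterm
  have hnn : ∀ k : ℕ, 0 ≤ t * (1 - t) * ((1 / 2 : ℝ) ^ k *
      ‖fc (ν1 : Measure T) k - fc (ν2 : Measure T) k‖ ^ 2) := fun k => by positivity
  have hzero : ∑' k : ℕ, t * (1 - t) * ((1 / 2 : ℝ) ^ k *
      ‖fc (ν1 : Measure T) k - fc (ν2 : Measure T) k‖ ^ 2) ≤ 0 := by nlinarith
  have heq : ν1 = ν2 := by
    apply eq_of_fc
    intro k
    have h3 := (hs3.le_tsum k (fun j _ => hnn j)).trans hzero
    have h4 := le_antisymm h3 (hnn k)
    have h5 : ‖fc (ν1 : Measure T) k - fc (ν2 : Measure T) k‖ ^ 2 = 0 := by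
      rcases mul_eq_zero.1 h4 with h | h
      · rcases mul_eq_zero.1 h with h | h <;> linarith
      · rcases mul_eq_zero.1 h with h | h
        · exact absurd h (by positivity)
        · exact h
    have h6 := pow_eq_zero_iff (two_ne_zero) |>.1 h5
    exact sub_eq_zero.1 (norm_eq_zero.1 h6)
  have hb1 : (ν1 : Measure T) B = 1 := by
    change (a⁻¹ • (ν : Measure T).restrict B) B = 1
    rw [Measure.smul_apply, Measure.restrict_apply_self, smul_eq_mul]
    exact ENNReal.inv_mul_cancel hB0 hanetop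
  have hb2 : (ν2 : Measure T) B = 0 := by
    change (((ν : Measure T) Bᶜ)⁻¹ • (ν : Measure T).restrict Bᶜ) B = 0
    rw [Measure.smul_apply, Measure.restrict_apply hB, inter_compl_self, measure_empty, smul_zero]
  rw [heq, hb2] at hb1
  exact zero_ne_one hb1

end Pool.Agent.H906R2.LG
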