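import Pool.Agent.H906R2.LGb

set_option autoImplicit false

open MeasureTheory Filter Topology Set
open scoped BoundedContinuousFunction ENNReal

namespace Pool.Agent.H906R2.LG

lemma tors_countable : {x : T | IsOfFinAddOrder x}.Countable := by
  have : {x : T | IsOfFinAddOrder x} ⊆ ⋃ n : ℕ, {x : T | (n + 1) • x = 0} := by
    intro x hx
    rw [mem_ofPred_eq, isOfFinAddOrder_iff_nsmul_eq_zero] at hx
    obtain ⟨n, hn, hx⟩ := hx
    rw [mem_iUnion]
    refine ⟨n - 1, ?_⟩
    rw [mem_ofPred_eq, Nat.sub_add_cancel (by omega)]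
    exact hx
  refine Countable.mono this (countable_iUnion fun n => ?_)
  exact (AddCircle.finite_torsion (p := (1:ℝ)) (n := n + 1) (by omega)).countable

lemma tors_preimage (p : ℕ) (hp : 1 ≤ p) :
    (fun x : T => p • x) ⁻¹' {x : T | IsOfFinAddOrder x} = {x : T | IsOfFinAddOrder x} := by
  ext x
  rw [mem_preimage, mem_ofPred_eq, mem_ofPred_eq]
  constructor
  · intro h
    rw [isOfFinAddOrder_iff_nsmul_eq_zero] at h ⊢
    obtain ⟨n, hn, hx⟩ := h
    refine ⟨n * p, Nat.mul_pos hn hp, ?_⟩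
    rw [mul_smul]; exact hx
  · intro h
    exact h.nsmul

/-- an atomless invariant measure other than Lebesgue yields an ergodic one -/
theorem exists_erg_atomless (p q : ℕ) (hp : 2 ≤ p) (hq : 2 ≤ q) (μ : ProbabilityMeasure T)
    (hμ : Inv p q μ) (hat : NullSingletonClass (μ : Measure T)) (hne : μ ≠ lam) :
    ∃ ν : ProbabilityMeasure T, Inv p q ν ∧ Erg p q ν ∧ NullSingletonClass (ν : Measure T) ∧
      ν ≠ lam := by
  -- `μ` is not absolutely continuous
  have hvp : IsProbabilityMeasure (volume : Measure T) := lam.2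
  have hnac : ¬ ((μ : Measure T) ≪ (volume : Measure T)) := by
    intro hac
    have h1 : Ergodic (fun x : T => p • x) (volume : Measure T) :=
      AddCircle.ergodic_nsmul (T := (1:ℝ)) (n := p) (by omega)
    have h2 := h1.eq_of_absolutelyContinuous hμ.1 hac
    exact hne (Subtype.ext h2)
  obtain ⟨N, hN, hNv, hNμ⟩ : ∃ N : Set T, MeasurableSet N ∧ (volume : Measure T) N = 0 ∧
      (μ : Measure T) N ≠ 0 := by
    by_contra hcon
    push Not at hcon
    apply hnac
    exact Measure.AbsolutelyContinuous.mk fun s hs h0 => hcon s hs h0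
  set B : Set T := {x : T | IsOfFinAddOrder x} with hB
  have hBm : MeasurableSet B := tors_countable.measurableSet
  have hBμ : (μ : Measure T) B = 0 := tors_countable.measure_zero _
  have hpos : 0 < (μ : Measure T) (N \ B) := by
    rw [measure_sdiff_null hBμ]
    exact pos_iff_ne_zero.2 hNμ
  obtain ⟨K, hKs, hKc, hKpos⟩ := (hN.diff hBm).exists_lt_isCompact hpos
  obtain ⟨ν, hν, hνe, hνK⟩ := exists_erg p q μ hμ K hKc.isClosed
  have hνK' : 0 < (ν : Measure T) K := hKpos.trans_le hνK
  have hνB : (ν : Measure T) B = 0 := by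
    rcases hνe B hBm (tors_preimage p (by omega)) (tors_preimage q (by omega)) with h | h
    · exact h
    · exfalso
      have h1 : (ν : Measure T) Bᶜ = 0 := by
        rw [prob_compl_eq_zero_iff hBm]; exact h
      have h2 : (ν : Measure T) K ≤ (ν : Measure T) Bᶜ :=
        measure_mono fun x hx => (hKs hx).2
      rw [h1] at h2
      exact absurd hνK' (not_lt.2 h2)
  refine ⟨ν, hν, hνe, ⟨fun x => ?_⟩, ?_⟩
  · by_contra hx
    obtain ⟨y, hy, m, hm, hym⟩ := (hν.1.conservative).exists_mem_iterate_mem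
      (measurableSet_singleton x).nullMeasurableSet hx
    rw [mem_singleton_iff] at hy hym
    subst hy
    have hit : ∀ m : ℕ, (fun x : T => p • x)^[m] y = (p ^ m) • y := by
      intro m
      induction m with
      | zero => simp
      | succ m ih => rw [Function.iterate_succ_apply', ih, smul_smul, pow_succ, mul_comm]
    rw [hit] at hym
    have hfin : IsOfFinAddOrder y := by
      rw [isOfFinAddOrder_iff_nsmul_eq_zero]
      have h1 : 2 ≤ p ^ m := by
        calc 2 ≤ p := hp
          _ = p ^ 1 := (pow_one p).symm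
          _ ≤ p ^ m := Nat.pow_le_pow_right (by omega) (by omega)
      refine ⟨p ^ m - 1, by omega, ?_⟩
      have h2 : (p ^ m - 1) • y + y = y := by
        rw [← succ_nsmul, Nat.sub_add_cancel (by omega)]; exact hym
      exact add_eq_right.1 h2
    have h3 : (ν : Measure T) {y} ≤ (ν : Measure T) B := measure_mono (by
      intro z hz; rw [mem_singleton_iff] at hz; subst hz; exact hfin)
    rw [hνB] at h3
    exact hx (le_antisymm h3 zero_le)
  · intro h
    have : (ν : Measure T) K ≤ (volume : Measure T) N := by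
      rw [h]; exact measure_mono fun x hx => (hKs hx).1
    rw [hNv] at this
    exact absurd hνK' (not_lt.2 this)

/-- The ergodic atomless `×p, ×q`-invariant probability measures other than Lebesgue measure. -/
def Exc (p q : ℕ) : Set (ProbabilityMeasure T) :=
  {ν | Inv p q ν ∧ Erg p q ν ∧ NullSingletonClass (ν : Measure T) ∧ ν ≠ lam}

theorem push_mem (p q : ℕ) (hp : 2 ≤ p) (ν : ProbabilityMeasure T) (h : ν ∈ Exc p q) (n : ℕ)
    (hn : 1 ≤ n) : push n ν ∈ Exc p q := by
  obtain ⟨h1, h2, h3, h4⟩ := h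
  refine ⟨inv_push p q n ν h1, erg_push p q n ν h2, noAtoms_push n hn ν h3, ?_⟩
  obtain ⟨k, hk, hk'⟩ := map_ne ν p hp h1.1 h4 n hn
  intro h
  apply hk'
  have : ((push n ν : ProbabilityMeasure T) : Measure T) = (volume : Measure T) := by rw [h]; rfl
  rw [push_coe] at this
  rw [this]
  exact fc_volume k hk

theorem push_dens (p q : ℕ) (ν : ProbabilityMeasure T) (h : ν ∈ Exc p q)
    (U : Set (ProbabilityMeasure T)) (hU : U ∈ 𝓝 lam) :
    Tendsto (fun N : ℕ => (Set.ncard {n : ℕ | 1 ≤ n ∧ n ≤ N ∧ push n ν ∉ U} : ℝ) / N) atTop (𝓝 0) := by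
  have h1 := push_tendsto ν h.2.2.1 hU
  rw [mem_map, mem_dens] at h1
  refine h1.congr fun N => ?_
  rw [one_div, inv_mul_eq_div]
  congr 2
  have : {n : ℕ | 1 ≤ n ∧ n ≤ N ∧ push n ν ∉ U} = (fun n => n + 1) ''
      {n : ℕ | n < N ∧ n ∉ (fun n => push (n + 1) ν) ⁻¹' U} := by
    ext n
    constructor
    · rintro ⟨h1, h2, h3⟩
      refine ⟨n - 1, ⟨by omega, ?_⟩, by simp only; omega⟩
      rw [mem_preimage, Nat.sub_add_cancel h1]; exact h3
    · rintro ⟨m, ⟨h1, h2⟩, rfl⟩
      exact ⟨by simp only; omega, by simp only; omega, h2⟩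
  rw [this, Set.ncard_image_of_injective _ (fun a b h => by simpa using h)]

theorem closure_of_mem (p q : ℕ) (hp : 2 ≤ p) (ν : ProbabilityMeasure T) (h : ν ∈ Exc p q) :
    lam ∈ closure (Exc p q) := by
  rw [mem_closure_iff_nhds]
  intro U hU
  by_contra hcon
  rw [Set.not_nonempty_iff_eq_empty] at hcon
  have h1 := push_dens p q ν h U hU
  have h2 : ∀ N : ℕ, 1 ≤ N → (Set.ncard {n : ℕ | 1 ≤ n ∧ n ≤ N ∧ push n ν ∉ U} : ℝ) / N = 1 := by
    intro N hN
    have : {n : ℕ | 1 ≤ n ∧ n ≤ N ∧ push n ν ∉ U} = (Finset.Icc 1 N : Set ℕ) := by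
      ext n
      rw [Finset.coe_Icc, mem_Icc]
      constructor
      · rintro ⟨a, b, _⟩; exact ⟨a, b⟩
      · rintro ⟨a, b⟩
        refine ⟨a, b, fun hU' => ?_⟩
        have : push n ν ∈ U ∩ Exc p q := ⟨hU', push_mem p q hp ν h n a⟩
        rw [hcon] at this
        exact this
    rw [this, Set.ncard_coe_finset, Nat.card_Icc, Nat.add_sub_cancel]
    have : (N:ℝ) ≠ 0 := by positivity
    field_simp
  have h3 : Tendsto (fun N : ℕ => (Set.ncard {n : ℕ | 1 ≤ n ∧ n ≤ N ∧ push n ν ∉ U} : ℝ) / N)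
      atTop (𝓝 1) := by
    refine tendsto_const_nhds.congr' ?_
    filter_upwards [eventually_ge_atTop 1] with N hN
    exact (h2 N hN).symm
  exact zero_ne_one (tendsto_nhds_unique h1 h3)

end Pool.Agent.H906R2.LG
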